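import Pool.Agent.Q51.EL.Stm
import Pool.Agent.Erdos456.Mertens

/-!
# Project EL, job SUMS
-/

set_option autoImplicit false

namespace Pool.Agent.Q91.EL

open Pool.Agent.Q51.EL Finset

lemma exp_convex {u : ℝ} (h0 : 0 ≤ u) (h1 : u ≤ 1) : Real.exp u - 1 ≤ 2 * u := by
  have h2 := convexOn_exp.2 (Set.mem_univ (0:ℝ)) (Set.mem_univ (1:ℝ)) (sub_nonneg.2 h1) h0
    (by ring)
  simp only [smul_eq_mul, mul_zero, mul_one, zero_add, Real.exp_zero] at h2
  have h3 := Real.exp_one_lt_d9
  nlinarith

lemma one_add_ge {x : ℝ} (h : 0 ≤ x) : Real.exp (x - x ^ 2) ≤ 1 + x := by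
  have h1 : 0 < 1 + x := by linarith
  rw [← Real.le_log_iff_exp_le h1]
  have h2 := Real.log_le_sub_one_of_pos (inv_pos.2 h1)
  rw [Real.log_inv] at h2
  have h3 : x - x ^ 2 ≤ 1 - (1 + x)⁻¹ := by
    have : 1 - (1 + x)⁻¹ = x / (1 + x) := by field_simp; ring
    rw [this, le_div_iff₀ h1]
    nlinarith [pow_nonneg h 3]
  linarith

theorem sums : S_SUMS := by
  intro A hA
  obtain ⟨C1', hC1'⟩ := Pool.Agent.Erdos456.Mert.mertens_log
  obtain ⟨C2', hC2'⟩ := Pool.Agent.Erdos456.Mert.mertens_inv
  obtain ⟨C1, hC10, hC1⟩ : ∃ C1 : ℝ, 0 ≤ C1 ∧ ∀ N : ℕ, 1 ≤ N →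
      ∑ p ∈ (Finset.Icc 1 N).filter Nat.Prime, Real.log p / p ≤ Real.log N + C1 :=
    ⟨|C1'|, abs_nonneg _, fun N hN => by
      have h1 := (abs_le.1 (hC1' N hN)).2
      have h2 := le_abs_self C1'
      linarith⟩
  obtain ⟨C2, hC20, hC2⟩ : ∃ C2 : ℝ, 0 ≤ C2 ∧ ∀ N : ℕ, 3 ≤ N →
      |∑ p ∈ (Finset.Icc 1 N).filter Nat.Prime, (1 : ℝ) / p - Real.log (Real.log N)| ≤ C2 :=
    ⟨|C2'|, abs_nonneg _, fun N hN => (hC2' N hN).trans (le_abs_self _)⟩
  have hsumm : Summable (fun n : ℕ => 1 / (n : ℝ) ^ 2) :=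
    Real.summable_one_div_nat_pow.2 (by norm_num)
  set K2 : ℝ := ∑' n : ℕ, 1 / (n : ℝ) ^ 2 with hK2
  have hK20 : 0 ≤ K2 := tsum_nonneg fun n => by positivity
  set s : ℝ := 2 * A * (1 + C1) + 1 with hs
  have hs1 : 1 ≤ s := by rw [hs]; nlinarith [mul_nonneg hA.le hC10]
  have hlogs : 0 ≤ Real.log s := Real.log_nonneg hs1
  have hl2 : 0 < Real.log 2 := Real.log_pos (by norm_num)
  set E : ℝ := A ^ 2 * K2 + A * (Real.log s + Real.log 2 + 2 * C2) + A * Real.exp (2 * s) with hE
  have hE1 : 0 ≤ A ^ 2 * K2 := by positivity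
  have hE2 : 0 ≤ A * (Real.log s + Real.log 2 + 2 * C2) := by positivity
  have hE3 : 0 ≤ A * Real.exp (2 * s) := by positivity
  refine ⟨1 / 2 * Real.exp (-E), by positivity, ?_⟩
  intro Q P η hQ hP hPQ hη
  have hterm : ∀ D ⊆ P, 0 ≤ ∏ t ∈ D, η t := fun D hD =>
    Finset.prod_nonneg fun t ht => (hη t (hD ht)).1
  have hQ0 : (0:ℝ) < Q := by exact_mod_cast hQ
  have hQ1 : (1:ℝ) ≤ Q := by exact_mod_cast hQ
  rcases lt_or_ge (Real.log Q) (2 * s) with hcase | hcase
  · -- small Q
    have h1 : (1:ℝ) ≤ ∑ D ∈ P.powerset.filter (fun D => ∏ t ∈ D, t ≤ Q), ∏ t ∈ D, η t := by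
      have h2 : (∅ : Finset ℕ) ∈ P.powerset.filter (fun D => ∏ t ∈ D, t ≤ Q) := by
        rw [mem_filter]; exact ⟨by simp, by simpa using hQ⟩
      have := Finset.single_le_sum (f := fun D : Finset ℕ => ∏ t ∈ D, η t)
        (fun D hD => hterm D (mem_powerset.1 (mem_filter.1 hD).1)) h2
      simpa using this
    have h2 : ∑ t ∈ P, η t ≤ A * Real.exp (2 * s) := by
      have h3 : ∑ t ∈ P, η t ≤ ∑ t ∈ P, A := by
        refine Finset.sum_le_sum fun t ht => (hη t ht).2.trans ?_
        exact div_le_self hA.le (by exact_mod_cast (hP t ht).one_lt.le)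
      have h4 : P.card ≤ Q := by
        have h5 : P ⊆ Icc 1 Q := fun t ht => mem_Icc.2 ⟨(hP t ht).one_lt.le, hPQ t ht⟩
        have := Finset.card_le_card h5
        simpa using this
      have h5 : (Q:ℝ) ≤ Real.exp (2 * s) := by
        rw [← Real.exp_log hQ0]; exact Real.exp_le_exp.2 hcase.le
      rw [Finset.sum_const, nsmul_eq_mul] at h3
      have h6 : (P.card : ℝ) ≤ Q := by exact_mod_cast h4
      nlinarith
    have h3 : 1 / 2 * Real.exp (-E) * Real.exp (∑ t ∈ P, η t) ≤ 1 := by
      have h4 : Real.exp (-E) * Real.exp (∑ t ∈ P, η t) ≤ 1 := by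
        rw [← Real.exp_add, Real.exp_le_one_iff]
        rw [hE]; linarith
      have h5 : 0 ≤ Real.exp (-E) * Real.exp (∑ t ∈ P, η t) := by positivity
      nlinarith
    exact h3.trans h1
  · -- large Q
    set lz : ℝ := Real.log Q / s with hlz
    have hs0 : 0 < s := by linarith
    have hlz2 : 2 ≤ lz := by rw [hlz, le_div_iff₀ hs0]; linarith
    have hlz0 : 0 < lz := by linarith
    set z : ℝ := Real.exp lz with hz
    have hz0 : 0 < z := Real.exp_pos _
    have hlogz : Real.log z = lz := Real.log_exp _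
    have hlogQ : Real.log Q = s * lz := by rw [hlz]; field_simp
    set κ : ℝ := 1 / lz with hκ
    have hκ0 : 0 < κ := by positivity
    set P' : Finset ℕ := P.filter (fun t : ℕ => (t:ℝ) ≤ z) with hP'
    have hP'P : P' ⊆ P := Finset.filter_subset _ _
    set N : ℕ := ⌊z⌋₊ with hN
    have hz7 : (7:ℝ) ≤ z := by
      have h1 : Real.exp 2 ≤ z := Real.exp_le_exp.2 hlz2
      have h2 : Real.exp 2 = Real.exp 1 * Real.exp 1 := by rw [← Real.exp_add]; norm_num
      have h3 := Real.exp_one_gt_d9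
      nlinarith
    have hN7 : 7 ≤ N := Nat.le_floor (by exact_mod_cast hz7)
    have hNz : (N:ℝ) ≤ z := Nat.floor_le hz0.le
    have hN0 : (0:ℝ) < N := by exact_mod_cast (by omega : 0 < N)
    -- the sum of log t / t over P'
    have hlogsum : ∑ t ∈ P', Real.log t / t ≤ lz + C1 := by
      have h1 : P' ⊆ (Finset.Icc 1 N).filter Nat.Prime := by
        intro t ht
        rw [hP', mem_filter] at ht
        rw [mem_filter, mem_Icc]
        exact ⟨⟨(hP t ht.1).one_lt.le, Nat.le_floor ht.2⟩, hP t ht.1⟩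
      have h2 := Finset.sum_le_sum_of_subset_of_nonneg (f := fun t : ℕ => Real.log t / t) h1
        (fun t ht _ => by
          have : 1 ≤ t := (mem_Icc.1 (mem_filter.1 ht).1).1
          exact div_nonneg (Real.log_nonneg (by exact_mod_cast this)) (by positivity))
      have h3 := hC1 N (by omega)
      have h4 : Real.log N ≤ lz := by rw [← hlogz]; exact Real.log_le_log hN0 hNz
      linarith
    -- the full product
    set Pf : ℝ := ∏ t ∈ P', (1 + η t) with hPf
    have hPf0 : 0 ≤ Pf := Finset.prod_nonneg fun t ht => by linarith [(hη t (hP'P ht)).1]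
    have hfull : ∑ D ∈ P'.powerset, ∏ t ∈ D, η t = Pf := by
      rw [hPf, Finset.prod_one_add]
    have hsplit : ∑ D ∈ P'.powerset.filter (fun D => ∏ t ∈ D, t ≤ Q), ∏ t ∈ D, η t +
        ∑ D ∈ P'.powerset.filter (fun D => ¬ ∏ t ∈ D, t ≤ Q), ∏ t ∈ D, η t = Pf := by
      rw [← hfull]; exact Finset.sum_filter_add_sum_filter_not _ _ _
    -- the tail
    have htail : ∑ D ∈ P'.powerset.filter (fun D => ¬ ∏ t ∈ D, t ≤ Q), ∏ t ∈ D, η t ≤
        Real.exp (-1) * Pf := by
      have h1 : ∑ D ∈ P'.powerset.filter (fun D => ¬ ∏ t ∈ D, t ≤ Q), ∏ t ∈ D, η t ≤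
          ∑ D ∈ P'.powerset, Real.exp (-s) * ∏ t ∈ D, (η t * Real.exp (κ * Real.log t)) := by
        refine (Finset.sum_le_sum (g := fun D => Real.exp (-s) *
          ∏ t ∈ D, (η t * Real.exp (κ * Real.log t))) fun D hD => ?_).trans
          (Finset.sum_le_sum_of_subset_of_nonneg (Finset.filter_subset _ _) fun D hD _ => ?_)
        · rw [mem_filter, mem_powerset] at hD
          obtain ⟨hD1, hD2⟩ := hD
          have hD3 := hterm D (hD1.trans hP'P)
          rw [Finset.prod_mul_distrib, ← Real.exp_sum, ← Finset.mul_sum, mul_left_comm,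
            ← Real.exp_add]
          have hlogp : ∑ t ∈ D, Real.log (t:ℝ) = Real.log ((∏ t ∈ D, t : ℕ) : ℝ) := by
            rw [Nat.cast_prod, Real.log_prod]
            intro t ht
            have := (hP t (hP'P (hD1 ht))).pos
            exact_mod_cast this.ne'
          have h2 : Real.log Q ≤ Real.log ((∏ t ∈ D, t : ℕ) : ℝ) :=
            Real.log_le_log hQ0 (by exact_mod_cast (not_le.1 hD2).le)
          have h3 : s ≤ κ * ∑ t ∈ D, Real.log (t:ℝ) := by
            rw [hlogp]
            have h4 : κ * Real.log Q = s := by rw [hlogQ, hκ]; field_simp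
            rw [← h4]
            exact mul_le_mul_of_nonneg_left h2 hκ0.le
          have h4 : 1 ≤ Real.exp (-s + κ * ∑ t ∈ D, Real.log (t:ℝ)) :=
            Real.one_le_exp (by linarith)
          nlinarith
        · rw [mem_powerset] at hD
          refine mul_nonneg (Real.exp_pos _).le (Finset.prod_nonneg fun t ht => ?_)
          exact mul_nonneg (hη t (hP'P (hD ht))).1 (Real.exp_pos _).le
      refine h1.trans ?_
      rw [← Finset.mul_sum, ← Finset.prod_one_add]
      have h2 : ∏ t ∈ P', (1 + η t * Real.exp (κ * Real.log t)) ≤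
          ∏ t ∈ P', ((1 + η t) * Real.exp (2 * A * κ * (Real.log t / t))) := by
        refine Finset.prod_le_prod (fun t ht => ?_) fun t ht => ?_
        · have := mul_nonneg (hη t (hP'P ht)).1 (Real.exp_pos (κ * Real.log t)).le
          linarith
        · have ht' := ht
          rw [hP', mem_filter] at ht'
          obtain ⟨hη0, hηA⟩ := hη t ht'.1
          have ht1 : (1:ℝ) ≤ t := by exact_mod_cast (hP t ht'.1).one_lt.le
          have hlt : 0 ≤ Real.log t := Real.log_nonneg ht1
          have hlt2 : Real.log t ≤ lz := by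
            rw [← hlogz]; exact Real.log_le_log (by linarith) ht'.2
          have h3 : κ * Real.log t ≤ 1 := by
            rw [hκ, one_div_mul_eq_div, div_le_one hlz0]; exact hlt2
          have h4 := exp_convex (mul_nonneg hκ0.le hlt) h3
          have h5 : η t * (Real.exp (κ * Real.log t) - 1) ≤ 2 * A * κ * (Real.log t / t) := by
            calc η t * (Real.exp (κ * Real.log t) - 1) ≤ η t * (2 * (κ * Real.log t)) :=
                  mul_le_mul_of_nonneg_left h4 hη0
              _ ≤ A / t * (2 * (κ * Real.log t)) :=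
                  mul_le_mul_of_nonneg_right hηA (by positivity)
              _ = _ := by ring
          have h6 := Real.add_one_le_exp (2 * A * κ * (Real.log t / t))
          have h7 : 0 ≤ η t * (Real.exp (κ * Real.log t) - 1) :=
            mul_nonneg hη0 (by linarith [Real.one_le_exp (mul_nonneg hκ0.le hlt)])
          have h8 : 1 + η t * (Real.exp (κ * Real.log t) - 1) ≤
            Real.exp (2 * A * κ * (Real.log t / t)) := by linarith
          calc 1 + η t * Real.exp (κ * Real.log t)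
              ≤ (1 + η t) * (1 + η t * (Real.exp (κ * Real.log t) - 1)) := by nlinarith
            _ ≤ _ := mul_le_mul_of_nonneg_left h8 (by linarith)
      have h3 : ∏ t ∈ P', ((1 + η t) * Real.exp (2 * A * κ * (Real.log t / t))) =
          Pf * Real.exp (2 * A * κ * ∑ t ∈ P', Real.log t / t) := by
        rw [Finset.prod_mul_distrib, ← Real.exp_sum, ← Finset.mul_sum]
      rw [h3] at h2
      have h4 : 2 * A * κ * ∑ t ∈ P', Real.log t / t ≤ s - 1 := by
        have h5 : 2 * A * κ * ∑ t ∈ P', Real.log t / t ≤ 2 * A * κ * (lz + C1) :=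
          mul_le_mul_of_nonneg_left hlogsum (by positivity)
        have h6 : 2 * A * κ * (lz + C1) = 2 * A * (1 + C1 / lz) := by
          rw [hκ]; field_simp
        have h7 : C1 / lz ≤ C1 := div_le_self hC10 (by linarith)
        have h8 : 2 * A * (1 + C1 / lz) ≤ 2 * A * (1 + C1) :=
          mul_le_mul_of_nonneg_left (by linarith) (by positivity)
        rw [h6] at h5
        rw [hs]; linarith
      calc Real.exp (-s) * ∏ t ∈ P', (1 + η t * Real.exp (κ * Real.log t))
          ≤ Real.exp (-s) * (Pf * Real.exp (s - 1)) := by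
            refine mul_le_mul_of_nonneg_left (h2.trans ?_) (Real.exp_pos _).le
            exact mul_le_mul_of_nonneg_left (Real.exp_le_exp.2 h4) hPf0
        _ = Real.exp (-1) * Pf := by
            have : Real.exp (-1) = Real.exp (-s) * Real.exp (s - 1) := by
              rw [← Real.exp_add]; congr 1; ring
            rw [this]; ring
    -- half of the product
    have he1 : Real.exp (-1) ≤ 1 / 2 := by
      rw [Real.exp_neg, inv_eq_one_div]
      exact one_div_le_one_div_of_le (by norm_num) (by linarith [Real.exp_one_gt_d9])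
    have hhalf : 1 / 2 * Pf ≤ ∑ D ∈ P'.powerset.filter (fun D => ∏ t ∈ D, t ≤ Q), ∏ t ∈ D, η t := by
      nlinarith
    have hsub : ∑ D ∈ P'.powerset.filter (fun D => ∏ t ∈ D, t ≤ Q), ∏ t ∈ D, η t ≤
        ∑ D ∈ P.powerset.filter (fun D => ∏ t ∈ D, t ≤ Q), ∏ t ∈ D, η t := by
      refine Finset.sum_le_sum_of_subset_of_nonneg ?_ fun D hD _ =>
        hterm D (mem_powerset.1 (mem_filter.1 hD).1)
      exact Finset.filter_subset_filter _ (Finset.powerset_mono.2 hP'P)
    refine le_trans ?_ (hhalf.trans hsub)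
    -- lower bound for the product
    have hPflow : Real.exp (∑ t ∈ P', η t - A ^ 2 * K2) ≤ Pf := by
      have h1 : ∑ t ∈ P', η t - A ^ 2 * K2 ≤ ∑ t ∈ P', (η t - η t ^ 2) := by
        rw [Finset.sum_sub_distrib]
        have h2 : ∑ t ∈ P', η t ^ 2 ≤ A ^ 2 * K2 := by
          have h3 : ∑ t ∈ P', η t ^ 2 ≤ ∑ t ∈ P', A ^ 2 * (1 / (t:ℝ) ^ 2) := by
            refine Finset.sum_le_sum fun t ht => ?_
            obtain ⟨hη0, hηA⟩ := hη t (hP'P ht)
            calc η t ^ 2 ≤ (A / t) ^ 2 := pow_le_pow_left₀ hη0 hηA 2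
              _ = _ := by ring
          rw [← Finset.mul_sum] at h3
          refine h3.trans (mul_le_mul_of_nonneg_left ?_ (by positivity))
          exact hsumm.sum_le_tsum _ fun n _ => by positivity
        linarith
      calc Real.exp (∑ t ∈ P', η t - A ^ 2 * K2) ≤ Real.exp (∑ t ∈ P', (η t - η t ^ 2)) :=
            Real.exp_le_exp.2 h1
        _ = ∏ t ∈ P', Real.exp (η t - η t ^ 2) := Real.exp_sum _ _
        _ ≤ Pf := Finset.prod_le_prod (fun t _ => (Real.exp_pos _).le) fun t ht =>
            one_add_ge (hη t (hP'P ht)).1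
    -- the large primes
    have hlarge : ∑ t ∈ P, η t ≤ ∑ t ∈ P', η t + A * (Real.log s + Real.log 2 + 2 * C2) := by
      rw [← Finset.sum_filter_add_sum_filter_not P (fun t : ℕ => (t:ℝ) ≤ z)]
      have h1 : ∑ t ∈ P.filter (fun t : ℕ => ¬ (t:ℝ) ≤ z), η t ≤
          A * ∑ t ∈ P.filter (fun t : ℕ => ¬ (t:ℝ) ≤ z), (1:ℝ) / t := by
        rw [Finset.mul_sum]
        refine Finset.sum_le_sum fun t ht => ?_
        rw [mul_one_div]; exact (hη t (mem_filter.1 ht).1).2
      have h2 : P.filter (fun t : ℕ => ¬ (t:ℝ) ≤ z) ⊆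
          (Finset.Icc 1 Q).filter Nat.Prime \ (Finset.Icc 1 N).filter Nat.Prime := by
        intro t ht
        rw [mem_filter] at ht
        rw [mem_sdiff, mem_filter, mem_filter, mem_Icc, mem_Icc]
        refine ⟨⟨⟨(hP t ht.1).one_lt.le, hPQ t ht.1⟩, hP t ht.1⟩, fun h => ht.2 ?_⟩
        exact le_trans (by exact_mod_cast h.1.2) hNz
      have h3 := Finset.sum_le_sum_of_subset_of_nonneg (f := fun t : ℕ => (1:ℝ) / t) h2
        (fun t _ _ => by positivity)
      have hNQ : N ≤ Q := by
        have : (N:ℝ) ≤ Q := by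
          refine hNz.trans ?_
          rw [← Real.exp_log hQ0, hlogQ, hz]
          refine Real.exp_le_exp.2 ?_
          nlinarith
        exact_mod_cast this
      have h4 : (Finset.Icc 1 N).filter Nat.Prime ⊆ (Finset.Icc 1 Q).filter Nat.Prime :=
        Finset.filter_subset_filter _ (Finset.Icc_subset_Icc_right hNQ)
      have h5 := Finset.sum_sdiff (f := fun t : ℕ => (1:ℝ) / t) h4
      have h6 := (abs_le.1 (hC2 Q (by omega))).2
      have h7 := (abs_le.1 (hC2 N (by omega))).1
      have h8 : Real.log lz - Real.log 2 ≤ Real.log (Real.log N) := by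
        rw [← Real.log_div hlz0.ne' (by norm_num)]
        refine Real.log_le_log (by positivity) ?_
        have h9 : z / 2 ≤ N := by
          have := Nat.lt_floor_add_one z
          rw [← hN] at this
          linarith
        have h10 : Real.log (z / 2) ≤ Real.log N := Real.log_le_log (by positivity) h9
        rw [Real.log_div hz0.ne' (by norm_num), hlogz] at h10
        have h11 : Real.log 2 ≤ 1 := by
          have := Real.log_two_lt_d9; linarith
        linarith
      have h9 : Real.log (Real.log Q) = Real.log s + Real.log lz := by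
        rw [hlogQ, Real.log_mul hs0.ne' hlz0.ne']
      have h10 : ∑ t ∈ P.filter (fun t : ℕ => ¬ (t:ℝ) ≤ z), (1:ℝ) / t ≤
          Real.log s + Real.log 2 + 2 * C2 := by linarith
      have h11 := mul_le_mul_of_nonneg_left h10 hA.le
      linarith
    calc 1 / 2 * Real.exp (-E) * Real.exp (∑ t ∈ P, η t)
        = 1 / 2 * Real.exp (-E + ∑ t ∈ P, η t) := by rw [Real.exp_add]; ring
      _ ≤ 1 / 2 * Real.exp (∑ t ∈ P', η t - A ^ 2 * K2) := by
          refine mul_le_mul_of_nonneg_left (Real.exp_le_exp.2 ?_) (by norm_num)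
          rw [hE]; linarith
      _ ≤ 1 / 2 * Pf := mul_le_mul_of_nonneg_left hPflow (by norm_num)

end Pool.Agent.Q91.EL
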