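import Pool.Agent.Q51.EL.Stm
import Pool.Agent.Erdos456.Mertens

/-!
# Project EL, job CNTL
-/

set_option autoImplicit false

namespace Pool.Agent.Q91.EL

open Pool.Agent.Q51.EL Finset

/-- squarefree numbers prime to `W` composed of primes of `P` -/
def Gd (W : ℕ) (P : Set ℕ) (m : ℕ) : Prop :=
  Squarefree m ∧ m.Coprime W ∧ ∀ q : ℕ, q.Prime → q ∣ m → q ∈ P

open Classical in
/-- a representative of the class `u` modulo `W` -/
noncomputable def rep (W : ℕ) (P : Set ℕ) (u : ℕ) : ℕ :=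
  if h : ∃ m, Gd W P m ∧ m % W = u then h.choose else 1

lemma gd_one (W : ℕ) (P : Set ℕ) : Gd W P 1 :=
  ⟨squarefree_one, Nat.coprime_one_left W, fun q hq h => by
    have := Nat.dvd_one.1 h; exact absurd this hq.ne_one⟩

lemma rep_gd (W : ℕ) (P : Set ℕ) (u : ℕ) : Gd W P (rep W P u) := by
  unfold rep
  split_ifs with h
  · exact h.choose_spec.1
  · exact gd_one W P

lemma rep_mod (W : ℕ) (P : Set ℕ) {m : ℕ} (h : Gd W P m) : rep W P (m % W) % W = m % W := by
  have h' : ∃ m', Gd W P m' ∧ m' % W = m % W := ⟨m, h, rfl⟩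
  unfold rep
  rw [dif_pos h']
  exact h'.choose_spec.2

/-- the sum of `1/q` over the primes in `(X^(1/4), X]` is bounded -/
lemma mert_range : ∃ C X1 : ℝ, 0 < C ∧ ∀ X : ℝ, X1 ≤ X →
    ∑ q ∈ (pr X).filter (fun q => ⌊X ^ ((1:ℝ)/4)⌋₊ < q), (1:ℝ) / q ≤ C := by
  obtain ⟨C, hC⟩ := Pool.Agent.Erdos456.Mert.mertens_inv
  have hC0 : 0 ≤ C := (abs_nonneg _).trans (hC 3 le_rfl)
  refine ⟨2 * C + Real.log 8, 2 ^ 16, ?_, fun X hX => ?_⟩
  · have : 0 < Real.log 8 := Real.log_pos (by norm_num)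
    linarith
  have hX0 : 0 < X := by linarith
  set Z : ℝ := X ^ ((1:ℝ)/4) with hZ
  have hZ16 : (16:ℝ) ≤ Z := by
    have : (16:ℝ) = ((2:ℝ) ^ 16) ^ ((1:ℝ)/4) := by
      rw [← Real.rpow_natCast, ← Real.rpow_mul (by norm_num)]
      norm_num
    rw [this]
    exact Real.rpow_le_rpow (by norm_num) hX (by norm_num)
  have hZX : Z ≤ X := by
    rw [hZ]
    calc X ^ ((1:ℝ)/4) ≤ X ^ (1:ℝ) :=
          Real.rpow_le_rpow_of_exponent_le (by linarith) (by norm_num)
      _ = X := Real.rpow_one X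
  set Q := ⌊Z⌋₊ with hQ
  set N := ⌊X⌋₊ with hN
  have hQN : Q ≤ N := Nat.floor_le_floor hZX
  have hQ3 : 3 ≤ Q := Nat.le_floor (by push_cast; linarith)
  have h1 := abs_le.1 (hC Q hQ3)
  have h2 := abs_le.1 (hC N (hQ3.trans hQN))
  have h3 : ∑ q ∈ (pr X).filter (fun q => Q < q), (1:ℝ) / q =
      ∑ p ∈ (Icc 1 N).filter Nat.Prime, (1:ℝ) / p - ∑ p ∈ (Icc 1 Q).filter Nat.Prime, (1:ℝ) / p := by
    have hsub : (Icc 1 Q).filter Nat.Prime ⊆ (Icc 1 N).filter Nat.Prime :=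
      Finset.filter_subset_filter _ (Finset.Icc_subset_Icc_right hQN)
    rw [← Finset.sum_sdiff hsub, add_sub_cancel_right]
    refine Finset.sum_congr ?_ fun _ _ => rfl
    ext q
    unfold pr
    simp only [mem_filter, mem_Icc, mem_sdiff, not_and]
    constructor
    · rintro ⟨⟨⟨h1, h2⟩, h3⟩, h4⟩
      exact ⟨⟨⟨h1, h2⟩, h3⟩, fun h5 => absurd h5.2 (not_le.2 h4)⟩
    · rintro ⟨⟨⟨h1, h2⟩, h3⟩, h4⟩
      exact ⟨⟨⟨h1, h2⟩, h3⟩, by
        by_contra hcon
        exact h4 ⟨h1, not_lt.1 hcon⟩ h3⟩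
  rw [h3]
  have hlogX : Real.log Z = Real.log X / 4 := by
    rw [hZ, Real.log_rpow hX0]; ring
  have hl16 : Real.log 16 = 4 * Real.log 2 := by
    rw [show (16:ℝ) = 2 ^ 4 by norm_num, Real.log_pow]; norm_num
  have hl2 : 0 < Real.log 2 := Real.log_pos (by norm_num)
  have hlogZ : 4 * Real.log 2 ≤ Real.log Z := by
    rw [← hl16]; exact Real.log_le_log (by norm_num) hZ16
  have hQZ : Z / 2 ≤ Q := by
    have := Nat.lt_floor_add_one Z
    rw [← hQ] at this
    linarith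
  have hlogQ : Real.log X / 8 ≤ Real.log Q := by
    calc Real.log X / 8 ≤ Real.log Z - Real.log 2 := by rw [hlogX] at hlogZ ⊢; linarith
      _ = Real.log (Z / 2) := by rw [Real.log_div (by linarith) (by norm_num)]
      _ ≤ Real.log Q := Real.log_le_log (by linarith) hQZ
  have hlX : 0 < Real.log X := by rw [hlogX] at hlogZ; linarith
  have h4 : Real.log (Real.log X) - Real.log 8 ≤ Real.log (Real.log Q) := by
    rw [← Real.log_div hlX.ne' (by norm_num)]
    exact Real.log_le_log (by positivity) hlogQ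
  have hNX : (N:ℝ) ≤ X := Nat.floor_le hX0.le
  have hN3 : (3:ℝ) ≤ N := by exact_mod_cast hQ3.trans hQN
  have hlN : 0 < Real.log N := Real.log_pos (by linarith)
  have h5 : Real.log (Real.log N) ≤ Real.log (Real.log X) :=
    Real.log_le_log hlN (Real.log_le_log (by linarith) hNX)
  linarith [h1.1, h1.2, h2.1, h2.2]

/-- growth: `2 E log X ≤ c0 X^(1/2)` for large `X`, and `X^(1/4)` is large -/
lemma growth (c0 K Y0 : ℝ) (hc0 : 0 < c0) : ∃ X2 : ℝ, 3 ≤ X2 ∧ ∀ X : ℝ, X2 ≤ X →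
    K * Real.log X ≤ c0 * X ^ ((1:ℝ)/2) ∧ Y0 ≤ X ^ ((1:ℝ)/4) := by
  have h1 : ∀ᶠ X : ℝ in Filter.atTop, |K| * Real.log X ≤ c0 * X ^ ((1:ℝ)/2) := by
    have h := (isLittleO_log_rpow_atTop (r := (1:ℝ)/2) (by norm_num)).bound
      (c := c0 / (|K| + 1)) (by positivity)
    filter_upwards [h, Filter.eventually_ge_atTop (1:ℝ)] with X hX hX1
    rw [Real.norm_of_nonneg (Real.log_nonneg hX1), Real.norm_of_nonneg (by positivity)] at hX
    have hlog := Real.log_nonneg hX1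
    calc |K| * Real.log X ≤ (|K| + 1) * Real.log X := by nlinarith
      _ ≤ (|K| + 1) * (c0 / (|K| + 1) * X ^ ((1:ℝ)/2)) := by gcongr
      _ = c0 * X ^ ((1:ℝ)/2) := by field_simp
  have h2 : ∀ᶠ X : ℝ in Filter.atTop, Y0 ≤ X ^ ((1:ℝ)/4) :=
    (tendsto_rpow_atTop (by norm_num)).eventually_ge_atTop Y0
  obtain ⟨X2, hX2⟩ := Filter.eventually_atTop.1 (h1.and h2)
  refine ⟨max 3 X2, le_max_left _ _, fun X hX => ?_⟩
  have h3 := hX2 X ((le_max_right _ _).trans hX)
  have hX3 : 3 ≤ X := (le_max_left _ _).trans hX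
  refine ⟨(mul_le_mul_of_nonneg_right (le_abs_self K) (Real.log_nonneg (by linarith))).trans h3.1,
    h3.2⟩

open Classical in
theorem cntl (h : S_SUMS) : S_CNTL := by
  intro W P S hW hSP hP hS1 hS
  obtain ⟨c0, Y0, hc0, hcount⟩ := hS
  obtain ⟨cs, hcs, hsums⟩ := h 1 one_pos
  obtain ⟨CM, X1, hCM, hmert⟩ := mert_range
  set E : ℕ := W * ∏ u ∈ range W, rep W P u with hE
  have hE0 : E ≠ 0 := mul_ne_zero hW
    (Finset.prod_ne_zero_iff.2 fun u _ => (rep_gd W P u).1.ne_zero)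
  have hWE : W ∣ E := Dvd.intro _ rfl
  have hrepE : ∀ m : ℕ, rep W P (m % W) ∣ E := fun m =>
    (Finset.dvd_prod_of_mem _ (mem_range.2 (Nat.mod_lt _ (Nat.pos_of_ne_zero hW)))).mul_left _
  have hE1 : (1:ℝ) ≤ E := by exact_mod_cast Nat.one_le_iff_ne_zero.2 hE0
  obtain ⟨X2, hX23, hgrow⟩ := growth c0 (2 * E) (max (2 * (E * (|Y0| + 1))) 2) hc0
  refine ⟨c0 / (2 * E) * cs * Real.exp (-(E + CM)), max X1 X2, by positivity, fun X hX => ?_⟩
  have hXX1 : X1 ≤ X := (le_max_left _ _).trans hX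
  have hXX2 : X2 ≤ X := (le_max_right _ _).trans hX
  have hX3 : 3 ≤ X := hX23.trans hXX2
  have hX0 : 0 < X := by linarith
  have hlogX : 0 < Real.log X := Real.log_pos (by linarith)
  obtain ⟨hg1, hg2⟩ := hgrow X hXX2
  set Z : ℝ := X ^ ((1:ℝ)/4) with hZ
  have hZ0 : 0 < Z := Real.rpow_pos_of_pos hX0 _
  have hZ4 : Z ^ 4 = X := by
    rw [hZ, ← Real.rpow_natCast, ← Real.rpow_mul hX0.le]; norm_num
  have hZ2 : X ^ ((1:ℝ)/2) = Z ^ 2 := by
    rw [hZ, ← Real.rpow_natCast, ← Real.rpow_mul hX0.le]; norm_num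
  rw [hZ2] at hg1
  set Q : ℕ := ⌊Z⌋₊ with hQ
  have hZ2' : 2 ≤ Z := (le_max_right _ _).trans hg2
  have hZE : 2 * (E * (|Y0| + 1)) ≤ Z := (le_max_left _ _).trans hg2
  have hQZ : (Q:ℝ) ≤ Z := Nat.floor_le hZ0.le
  have hQ1 : 1 ≤ Q := Nat.le_floor (by push_cast; linarith)
  have hEQ : E ≤ Q := by
    apply Nat.le_floor
    have := abs_nonneg Y0
    nlinarith
  -- the primes
  set P' : Finset ℕ := (pr Q).filter (fun q => q ∈ P ∧ ¬ q ∣ E) with hP'
  have hP'mem : ∀ q ∈ P', q.Prime ∧ q ≤ Q ∧ q ∈ P ∧ ¬ q ∣ E := by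
    intro q hq
    rw [hP', mem_filter] at hq
    unfold pr at hq
    rw [mem_filter, mem_Icc, Nat.floor_natCast] at hq
    exact ⟨hq.1.2, hq.1.1.2, hq.2.1, hq.2.2⟩
  set DD : Finset (Finset ℕ) := P'.powerset.filter (fun D => ∏ t ∈ D, t ≤ Q) with hDD
  have hsum := hsums Q P' (fun t => 1 / (t:ℝ)) hQ1 (fun t ht => (hP'mem t ht).1)
    (fun t ht => (hP'mem t ht).2.1) (fun t ht => ⟨by positivity, le_rfl⟩)
  rw [← hDD] at hsum
  -- properties of the products
  have hDprime : ∀ D ∈ DD, ∀ t ∈ D, t.Prime := fun D hD t ht =>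
    (hP'mem t (mem_powerset.1 (mem_filter.1 hD).1 ht)).1
  have hDpf : ∀ D ∈ DD, (∏ t ∈ D, t).primeFactors = D := fun D hD =>
    Nat.primeFactors_prod (hDprime D hD)
  have hDsq : ∀ D ∈ DD, Squarefree (∏ t ∈ D, t) := by
    intro D hD
    refine Finset.squarefree_prod_of_pairwise_isCoprime (fun p hp q hq hpq => ?_)
      fun p hp => (hDprime D hD p hp).prime.squarefree
    simp only [Function.onFun, ← Nat.coprime_iff_isRelPrime]
    exact (Nat.coprime_primes (hDprime D hD p hp) (hDprime D hD q hq)).2 hpq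
  have hDpos : ∀ D ∈ DD, 0 < ∏ t ∈ D, t := fun D hD => Nat.pos_of_ne_zero (hDsq D hD).ne_zero
  have hDQ : ∀ D ∈ DD, ∏ t ∈ D, t ≤ Q := fun D hD => (mem_filter.1 hD).2
  have hDq : ∀ D ∈ DD, ∀ q : ℕ, q.Prime → q ∣ ∏ t ∈ D, t → q ∈ P ∧ ¬ q ∣ E := by
    intro D hD q hq hqd
    have h1 : q ∈ (∏ t ∈ D, t).primeFactors :=
      Nat.mem_primeFactors.2 ⟨hq, hqd, (hDsq D hD).ne_zero⟩
    rw [hDpf D hD] at h1
    have h2 := hP'mem q (mem_powerset.1 (mem_filter.1 hD).1 h1)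
    exact ⟨h2.2.2.1, h2.2.2.2⟩
  have hDE : ∀ D ∈ DD, (∏ t ∈ D, t).Coprime E := fun D hD =>
    Nat.coprime_of_dvd fun k hk h1 => (hDq D hD k hk h1).2
  have hDgd : ∀ D ∈ DD, Gd W P (∏ t ∈ D, t) := fun D hD =>
    ⟨hDsq D hD, (hDE D hD).coprime_dvd_right hWE, fun q hq h1 => (hDq D hD q hq h1).1⟩
  have hrE : ∀ D ∈ DD, rep W P ((∏ t ∈ D, t) % W) ≤ E := fun D _ =>
    Nat.le_of_dvd (Nat.pos_of_ne_zero hE0) (hrepE _)
  have hpS : ∀ p ∈ S, p.Prime := fun p hp => hP p (hSP hp)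
  -- the sets of the large primes
  set Sp : Finset ℕ → Finset ℕ := fun D =>
    (pr (X / (((∏ t ∈ D, t : ℕ) : ℝ) * E))).filter (fun p => p ∈ S ∧ Q < p) with hSp
  have hSpcard : ∀ D ∈ DD, c0 / (2 * E) * (X / Real.log X) * (1 / ((∏ t ∈ D, t : ℕ) : ℝ)) ≤
      ((Sp D).card : ℝ) := by
    intro D hD
    set m : ℕ := ∏ t ∈ D, t with hm
    have hm1 : (1:ℝ) ≤ m := by exact_mod_cast hDpos D hD
    have hmQ : (m:ℝ) ≤ Q := by exact_mod_cast hDQ D hD
    have hmZ : (m:ℝ) ≤ Z := hmQ.trans hQZ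
    set Y : ℝ := X / ((m:ℝ) * E) with hY
    have hmE : 0 < (m:ℝ) * E := by positivity
    have hYZ : Z ^ 3 / E ≤ Y := by
      rw [hY, div_le_div_iff₀ (by positivity) hmE, ← hZ4]
      have : Z ^ 3 * (m * E) = Z ^ 3 * m * E := by ring
      rw [this]
      have : Z ^ 3 * m ≤ Z ^ 4 := by
        have := mul_le_mul_of_nonneg_left hmZ (by positivity : 0 ≤ Z ^ 3)
        calc Z ^ 3 * m ≤ Z ^ 3 * Z := this
          _ = Z ^ 4 := by ring
      exact mul_le_mul_of_nonneg_right this (by linarith)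
    have hZ3 : Z ≤ Z ^ 3 := by nlinarith [sq_nonneg Z]
    have hYY : 2 * (|Y0| + 1) ≤ Y := by
      refine le_trans ?_ hYZ
      rw [le_div_iff₀ (by linarith)]
      calc 2 * (|Y0| + 1) * E = 2 * (E * (|Y0| + 1)) := by ring
        _ ≤ Z := hZE
        _ ≤ Z ^ 3 := hZ3
    have hYY0 : Y0 ≤ Y := by
      have h1 := le_abs_self Y0
      have h2 := abs_nonneg Y0
      linarith
    have hY2 : 2 ≤ Y := by
      have h2 := abs_nonneg Y0
      linarith
    have hYX : Y ≤ X := by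
      rw [hY, div_le_iff₀ hmE]
      have : 1 ≤ (m:ℝ) * E := by nlinarith
      nlinarith
    have hlogY : 0 < Real.log Y := Real.log_pos (by linarith)
    have hlogYX : Real.log Y ≤ Real.log X := Real.log_le_log (by linarith) hYX
    have h1 := hcount Y hYY0
    have h2 : c0 * Y / Real.log X ≤ c0 * Y / Real.log Y :=
      div_le_div_of_nonneg_left (by positivity) hlogY hlogYX
    have h3 : ((pr Y).filter (fun p => p ∈ S)).card ≤ (Sp D).card + Q := by
      have hsub : (pr Y).filter (fun p => p ∈ S) ⊆ Sp D ∪ Icc 1 Q := by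
        intro p hp
        rw [mem_filter] at hp
        rw [mem_union]
        rcases le_or_gt p Q with h4 | h4
        · right
          exact mem_Icc.2 ⟨(hpS p hp.2).pos, h4⟩
        · left
          exact mem_filter.2 ⟨hp.1, hp.2, h4⟩
      refine (Finset.card_le_card hsub).trans ((Finset.card_union_le _ _).trans ?_)
      rw [Nat.card_Icc]; omega
    have h3' : (((pr Y).filter (fun p => p ∈ S)).card : ℝ) ≤ (Sp D).card + Q := by
      exact_mod_cast h3
    have h4 : Z ≤ c0 * Y / Real.log X / 2 := by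
      rw [div_div, le_div_iff₀ (by positivity)]
      have h5 : Z * (Real.log X * 2) * E ≤ c0 * Z ^ 3 := by
        calc Z * (Real.log X * 2) * E = Z * (2 * E * Real.log X) := by ring
          _ ≤ Z * (c0 * Z ^ 2) := mul_le_mul_of_nonneg_left hg1 hZ0.le
          _ = c0 * Z ^ 3 := by ring
      have h6 : c0 * (Z ^ 3 / E) ≤ c0 * Y := mul_le_mul_of_nonneg_left hYZ hc0.le
      refine le_trans ?_ h6
      rw [← mul_div_assoc, le_div_iff₀ (by linarith)]
      exact h5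
    have h5 : c0 / (2 * E) * (X / Real.log X) * (1 / (m : ℝ)) = c0 * Y / Real.log X / 2 := by
      rw [hY]; field_simp
    rw [h5]
    linarith
  -- the map
  set T : Finset ℕ := (Icc 1 ⌊X⌋₊).filter (fun m : ℕ => Squarefree m ∧ m.Coprime W ∧
      (∀ q : ℕ, q.Prime → q ∣ m → q ∈ P) ∧ ∃ t : ℤ, (W : ℤ) ∣ m - t ^ 2) with hT
  have hSpmem : ∀ D, ∀ p ∈ Sp D, p ∈ S ∧ Q < p ∧ (p:ℝ) ≤ X / (((∏ t ∈ D, t : ℕ) : ℝ) * E) := by
    intro D p hp
    rw [hSp] at hp
    simp only [mem_filter] at hp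
    unfold pr at hp
    rw [mem_filter, mem_Icc] at hp
    refine ⟨hp.2.1, hp.2.2, ?_⟩
    exact (Nat.le_floor_iff (by positivity)).1 hp.1.1.2
  have hinj : (DD.sigma Sp).card ≤ T.card := by
    refine Finset.card_le_card_of_injOn
      (fun x => (∏ t ∈ x.1, t) * rep W P ((∏ t ∈ x.1, t) % W) * x.2) ?_ ?_
    · rintro ⟨D, p⟩ hx
      rw [Finset.mem_coe, mem_sigma] at hx
      obtain ⟨hD, hp⟩ := hx
      simp only at hD hp ⊢
      obtain ⟨hpS', hQp, hpX⟩ := hSpmem D p hp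
      have hpp := hpS p hpS'
      have hrgd := rep_gd W P ((∏ t ∈ D, t) % W)
      have hrmod := rep_mod W P (hDgd D hD)
      have hrE' := hrE D hD
      have hrdvd := hrepE (∏ t ∈ D, t)
      set m : ℕ := ∏ t ∈ D, t with hm
      set r : ℕ := rep W P (m % W) with hr
      have hm0 : 0 < m := hDpos D hD
      have hr0 : 0 < r := Nat.pos_of_ne_zero hrgd.1.ne_zero
      have hpm : ¬ p ∣ m := fun h => absurd (Nat.le_of_dvd hm0 h)
        (not_le.2 ((hDQ D hD).trans_lt hQp))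
      have hpr : ¬ p ∣ r := fun h => absurd (Nat.le_of_dvd hr0 h)
        (not_le.2 ((hrE'.trans hEQ).trans_lt hQp))
      have hpmr : (m * r).Coprime p := by
        rw [Nat.coprime_comm, Nat.Prime.coprime_iff_not_dvd hpp, hpp.dvd_mul]
        tauto
      have hmr : m.Coprime r := (hDE D hD).coprime_dvd_right hrdvd
      have hpW : p.Coprime W := by
        have h1 : p ≡ 1 [MOD W] := hS1 p hpS'
        have := h1.gcd_eq
        rw [Nat.gcd_one_left] at this
        exact this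
      rw [Finset.mem_coe, hT, mem_filter, mem_Icc]
      refine ⟨⟨Nat.mul_pos (Nat.mul_pos hm0 hr0) hpp.pos, ?_⟩, ?_, ?_, ?_, ?_⟩
      · apply Nat.le_floor
        rw [le_div_iff₀ (by
          have : (0:ℝ) < m := by exact_mod_cast hm0
          positivity)] at hpX
        refine le_trans ?_ hpX
        push_cast
        have h1 : (r:ℝ) ≤ E := by exact_mod_cast hrE'
        have h2 : (0:ℝ) ≤ m := by positivity
        have h3 : (0:ℝ) ≤ p := by positivity
        calc (m:ℝ) * r * p ≤ m * E * p := by gcongr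
          _ = p * (m * E) := by ring
      · rw [Nat.squarefree_mul_iff]
        refine ⟨hpmr, ?_, hpp.prime.squarefree⟩
        rw [Nat.squarefree_mul_iff]
        exact ⟨hmr, hDsq D hD, hrgd.1⟩
      · exact Nat.Coprime.mul_left (Nat.Coprime.mul_left (hDgd D hD).2.1 hrgd.2.1) hpW
      · intro q hq hqd
        rw [hq.dvd_mul, hq.dvd_mul] at hqd
        rcases hqd with (h1 | h1) | h1
        · exact (hDgd D hD).2.2 q hq h1
        · exact hrgd.2.2 q hq h1
        · rw [(Nat.prime_dvd_prime_iff_eq hq hpp).1 h1]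
          exact hSP hpS'
      · refine ⟨m, ?_⟩
        have h1 : p ≡ 1 [MOD W] := hS1 p hpS'
        have h2 : m * m * 1 ≡ m * r * p [MOD W] :=
          ((Nat.ModEq.refl m).mul (show m ≡ r [MOD W] from hrmod.symm)).mul h1.symm
        have h3 := (Nat.modEq_iff_dvd.1 h2)
        push_cast at h3 ⊢
        rw [mul_one, ← sq] at h3
        exact h3
    · rintro ⟨D, p⟩ hx ⟨D', p'⟩ hx' heq
      rw [Finset.mem_coe, mem_sigma] at hx hx'
      obtain ⟨hD, hp⟩ := hx
      obtain ⟨hD', hp'⟩ := hx'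
      simp only at hD hp hD' hp' heq
      obtain ⟨hpS', hQp, -⟩ := hSpmem D p hp
      obtain ⟨hpS'', hQp', -⟩ := hSpmem D' p' hp'
      have hpp := hpS p hpS'
      have hpp' := hpS p' hpS''
      have hrgd := rep_gd W P ((∏ t ∈ D, t) % W)
      have hrgd' := rep_gd W P ((∏ t ∈ D', t) % W)
      have hrE1 := hrE D hD
      have hrE2 := hrE D' hD'
      have hrdvd := hrepE (∏ t ∈ D, t)
      have hrdvd' := hrepE (∏ t ∈ D', t)
      have hpf := hDpf D hD
      have hpf' := hDpf D' hD'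
      have hDE1 := hDE D hD
      have hDE2 := hDE D' hD'
      have hQ1' := hDQ D hD
      have hQ2' := hDQ D' hD'
      have hm0 := hDpos D hD
      have hm0' := hDpos D' hD'
      generalize (∏ t ∈ D, t) = m at *
      generalize (∏ t ∈ D', t) = m' at *
      have hr0' : 0 < rep W P (m' % W) := Nat.pos_of_ne_zero hrgd'.1.ne_zero
      have hpp2 : p = p' := by
        have h1 : p ∣ m' * rep W P (m' % W) * p' := by rw [← heq]; exact Dvd.intro_left _ rfl
        rw [hpp.dvd_mul, hpp.dvd_mul] at h1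
        rcases h1 with (h1 | h1) | h1
        · exact absurd (Nat.le_of_dvd hm0' h1) (not_le.2 (hQ2'.trans_lt hQp))
        · exact absurd (Nat.le_of_dvd hr0' h1) (not_le.2 ((hrE2.trans hEQ).trans_lt hQp))
        · exact (Nat.prime_dvd_prime_iff_eq hpp hpp').1 h1
      subst hpp2
      have heq2 : m * rep W P (m % W) = m' * rep W P (m' % W) := Nat.eq_of_mul_eq_mul_right hpp.pos heq
      have h1 : m ∣ m' := by
        have h2 : m ∣ m' * rep W P (m' % W) := by rw [← heq2]; exact Dvd.intro _ rfl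
        exact (hDE1.coprime_dvd_right hrdvd').dvd_of_dvd_mul_right h2
      have h2 : m' ∣ m := by
        have h2 : m' ∣ m * rep W P (m % W) := by rw [heq2]; exact Dvd.intro _ rfl
        exact (hDE2.coprime_dvd_right hrdvd).dvd_of_dvd_mul_right h2
      have h3 : m = m' := Nat.dvd_antisymm h1 h2
      have h4 : D = D' := by rw [← hpf, ← hpf', h3]
      subst h4
      rfl
  -- sums
  have hcardT : c0 / (2 * E) * (X / Real.log X) * ∑ D ∈ DD, ∏ t ∈ D, 1 / (t:ℝ) ≤ (T.card : ℝ) := by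
    calc c0 / (2 * E) * (X / Real.log X) * ∑ D ∈ DD, ∏ t ∈ D, 1 / (t:ℝ)
        = ∑ D ∈ DD, c0 / (2 * E) * (X / Real.log X) * (1 / ((∏ t ∈ D, t : ℕ) : ℝ)) := by
          rw [Finset.mul_sum]
          refine Finset.sum_congr rfl fun D _ => ?_
          rw [Finset.prod_div_distrib]
          simp
      _ ≤ ∑ D ∈ DD, ((Sp D).card : ℝ) := Finset.sum_le_sum hSpcard
      _ = ((DD.sigma Sp).card : ℝ) := by rw [Finset.card_sigma]; push_cast; rfl
      _ ≤ (T.card : ℝ) := by exact_mod_cast hinj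
  have hsumX : ∑ q ∈ (pr X).filter (fun q => q ∈ P), (1 : ℝ) / q ≤
      ∑ q ∈ P', (1:ℝ) / q + (E + CM) := by
    have hsub : (pr X).filter (fun q => q ∈ P) ⊆
        P' ∪ (Icc 1 E ∪ (pr X).filter (fun q => Q < q)) := by
      intro q hq
      rw [mem_filter] at hq
      have hqp := hP q hq.2
      rw [mem_union, mem_union]
      by_cases h1 : Q < q
      · exact Or.inr (Or.inr (mem_filter.2 ⟨hq.1, h1⟩))
      by_cases h2 : q ∣ E
      · exact Or.inr (Or.inl (mem_Icc.2 ⟨hqp.pos, Nat.le_of_dvd (Nat.pos_of_ne_zero hE0) h2⟩))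
      · left
        rw [hP', mem_filter]
        unfold pr
        rw [mem_filter, mem_Icc, Nat.floor_natCast]
        exact ⟨⟨⟨hqp.pos, not_lt.1 h1⟩, hqp⟩, hq.2, h2⟩
    have h1 := Finset.sum_le_sum_of_subset_of_nonneg hsub
      (f := fun q : ℕ => (1:ℝ) / q) (fun _ _ _ => by positivity)
    have h2 := Finset.sum_union_inter (s₁ := P') (s₂ := Icc 1 E ∪ (pr X).filter (fun q => Q < q))
      (f := fun q : ℕ => (1:ℝ) / q)
    have h3 := Finset.sum_union_inter (s₁ := Icc 1 E) (s₂ := (pr X).filter (fun q => Q < q))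
      (f := fun q : ℕ => (1:ℝ) / q)
    have h4 : 0 ≤ ∑ q ∈ P' ∩ (Icc 1 E ∪ (pr X).filter (fun q => Q < q)), (1:ℝ) / q :=
      Finset.sum_nonneg fun _ _ => by positivity
    have h5 : 0 ≤ ∑ q ∈ Icc 1 E ∩ (pr X).filter (fun q => Q < q), (1:ℝ) / q :=
      Finset.sum_nonneg fun _ _ => by positivity
    have h6 : ∑ q ∈ Icc 1 E, (1:ℝ) / q ≤ E := by
      calc ∑ q ∈ Icc 1 E, (1:ℝ) / q ≤ ∑ q ∈ Icc 1 E, (1:ℝ) := by
            refine Finset.sum_le_sum fun q hq => ?_
            have : (1:ℝ) ≤ q := by exact_mod_cast (mem_Icc.1 hq).1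
            rw [div_le_one (by linarith)]; exact this
        _ = E := by simp
    have h7 := hmert X hXX1
    linarith
  have hexp : Real.exp (-(E + CM)) * Real.exp (∑ q ∈ (pr X).filter (fun q => q ∈ P), (1 : ℝ) / q) ≤
      Real.exp (∑ q ∈ P', (1:ℝ) / q) := by
    rw [← Real.exp_add]
    apply Real.exp_le_exp.2
    linarith
  have hA : 0 ≤ c0 / (2 * E) * (X / Real.log X) := by positivity
  calc c0 / (2 * E) * cs * Real.exp (-(E + CM)) * X / Real.log X *
        Real.exp (∑ q ∈ (pr X).filter (fun q => q ∈ P), (1 : ℝ) / q)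
      = c0 / (2 * E) * (X / Real.log X) * (cs * (Real.exp (-(E + CM)) *
        Real.exp (∑ q ∈ (pr X).filter (fun q => q ∈ P), (1 : ℝ) / q))) := by ring
    _ ≤ c0 / (2 * E) * (X / Real.log X) * (cs * Real.exp (∑ q ∈ P', (1:ℝ) / q)) :=
        mul_le_mul_of_nonneg_left (mul_le_mul_of_nonneg_left hexp hcs.le) hA
    _ ≤ c0 / (2 * E) * (X / Real.log X) * ∑ D ∈ DD, ∏ t ∈ D, 1 / (t:ℝ) :=
        mul_le_mul_of_nonneg_left hsum hA
    _ ≤ _ := hcardT

end Pool.Agent.Q91.EL
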