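import Pool.Agent.Q51.EL.Stm

/-!
# Project EL, job CORE
-/

set_option autoImplicit false

namespace Pool.Agent.Q91.EL

open Pool.Agent.Q51.EL NumberField IsDedekindDomain Finset

open Classical in
lemma tau_nonneg (L : Type) [Field L] [NumberField L] (l : ℕ) : 0 ≤ tau L l := by
  unfold tau
  split_ifs
  · exact le_rfl
  · positivity
  · exact zero_le_one

lemma four_mul_le {n : ℕ} (hn : 5 ≤ n) : (n : ℝ) * 4 / 2 ^ n ≤ 5 / 8 := by
  rw [div_le_iff₀ (by positivity)]
  induction n, hn using Nat.le_induction with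
  | base => norm_num
  | succ n hn ih =>
    rw [pow_succ]
    push_cast
    have : (1:ℝ) ≤ 2 ^ n := one_le_pow₀ (by norm_num)
    have h5 : (5:ℝ) ≤ n := by exact_mod_cast hn
    nlinarith

/-- the bounds for `N1 - tau` -/
lemma tau_le (L : Type) [Field L] [NumberField L] (hn : 5 ≤ Module.finrank ℚ L) (l : ℕ) :
    tau L l ≤ (if 1 ≤ N1 L l then 1 else 0) -
      3 / 8 * (if N1 L l = Module.finrank ℚ L then 1 else 0) := by
  unfold tau
  rcases Nat.eq_zero_or_pos (N1 L l) with h0 | h0
  · have h2 : ¬ N1 L l = Module.finrank ℚ L := by omega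
    have h3 : ¬ 1 ≤ N1 L l := by omega
    rw [if_pos h0, if_neg h3, if_neg h2]; norm_num
  · have h3 : 1 ≤ N1 L l := h0
    have h4 : ¬ N1 L l = 0 := by omega
    rw [if_neg h4, if_pos h3]
    by_cases h2 : N1 L l = Module.finrank ℚ L
    · rw [if_pos h2, if_pos h2]
      have := four_mul_le hn
      linarith
    · rw [if_neg h2, if_neg h2]; norm_num

open Classical in
theorem core (h1 : S_SIEVE) (h2 : S_SUMS) (h3 : S_CNT) (h4 : S_RAM) (h5 : S_M1) (h6 : S_M2) :
    S_CORE := by
  intro L _ _ hn B hB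
  set n := Module.finrank ℚ L with hndef
  obtain ⟨Cs, hCs, hsieve⟩ := h1 L
  obtain ⟨⟨B0, hB0, hram⟩, hN1le⟩ := h4 L
  have hn0 : (0:ℝ) < n := by exact_mod_cast (by omega : 0 < n)
  have hn5 : (5:ℝ) ≤ n := by exact_mod_cast hn
  obtain ⟨c2, hc2, hsums⟩ := h2 n hn0
  obtain ⟨c6, C6, hc6, hsplit⟩ := h6 L
  obtain ⟨C5, hmert⟩ := h5 L (c6 / 8) (by positivity)
  have hsumm : Summable (fun n : ℕ => 1 / (n : ℝ) ^ 2) :=
    Real.summable_one_div_nat_pow.2 (by norm_num)
  set K2 : ℝ := ∑' n : ℕ, 1 / (n : ℝ) ^ 2 with hK2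
  set B' : ℕ := B * B0 with hB'
  have hB'0 : B' ≠ 0 := mul_ne_zero hB hB0
  set c : ℝ := c6 / 4 with hc
  have hc0 : 0 < c := by positivity
  -- the constant
  set R : ℝ := (1 + c) * Real.log 2 + C5 + 3 / 8 * C6 + n * (n ^ 2 + B' + 1) + n ^ 2 * K2 with hR
  refine ⟨c, Cs / c2 * Real.exp R + Cs * Real.log 9 ^ (1 + c), hc0, ?_⟩
  intro T hT Y hY
  have hY0 : 0 < Y := by linarith
  have hlogY1 : 1 ≤ Real.log Y := by
    rw [Real.le_log_iff_exp_le hY0]
    have := Real.exp_one_lt_d9; linarith
  have hlogY : 0 < Real.log Y := by linarith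
  have hGN0 : 0 ≤ GN L Y := by unfold GN; exact Finset.sum_nonneg fun q _ => by positivity
  have hlog9 : 0 < Real.log 9 := Real.log_pos (by norm_num)
  have hYn : 0 < Y ^ n := by positivity
  set M : ℝ := (({β ∈ T | ∀ σ : L →+* ℂ, ‖σ (β : L)‖ ≤ Y}.ncard : ℕ) : ℝ) with hM
  have hM0 : 0 ≤ M := Nat.cast_nonneg _
  have htriv := hsieve Y ∅ T (fun _ => 1) (by linarith) (by simp) (by simp)
  refine ⟨htriv.1, ?_⟩
  have hlp : 0 < Real.log Y ^ (-(1 + c)) := Real.rpow_pos_of_pos hlogY _
  have hconst0 : 0 ≤ Cs / c2 * Real.exp R := by positivity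
  have hconst1 : 0 ≤ Cs * Real.log 9 ^ (1 + c) := by positivity
  rcases lt_or_ge Y 9 with hY9 | hY9
  · -- small Y
    have h7 : M ≤ Cs * Y ^ n := by
      have := htriv.2
      rw [Finset.powerset_empty] at this
      have h8 : ({∅} : Finset (Finset ℕ)).filter
          (fun D => (((∏ t ∈ D, t : ℕ) : ℝ)) ^ 2 ≤ Y) = {∅} := by
        rw [Finset.filter_eq_self]
        intro D hD
        rw [mem_singleton] at hD
        subst hD
        simp; linarith
      rw [h8] at this
      simpa using this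
    have h8 : 1 ≤ Real.log 9 ^ (1 + c) * Real.log Y ^ (-(1 + c)) := by
      rw [Real.rpow_neg hlogY.le, ← div_eq_mul_inv, one_le_div (by positivity)]
      exact Real.rpow_le_rpow hlogY.le (Real.log_le_log hY0 hY9.le) (by linarith)
    have h9 : 1 ≤ Real.exp (GN L Y) := Real.one_le_exp hGN0
    calc M ≤ Cs * Y ^ n := h7
      _ ≤ Cs * Y ^ n * (Real.exp (GN L Y) * (Real.log 9 ^ (1 + c) * Real.log Y ^ (-(1 + c)))) := by
          refine le_mul_of_one_le_right (by positivity) ?_
          nlinarith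
      _ = Cs * Real.log 9 ^ (1 + c) * Y ^ n * Real.exp (GN L Y) * Real.log Y ^ (-(1 + c)) := by
          ring
      _ ≤ _ := by
          refine mul_le_mul_of_nonneg_right (mul_le_mul_of_nonneg_right
            (mul_le_mul_of_nonneg_right ?_ hYn.le) (Real.exp_pos _).le) hlp.le
          linarith
  · -- large Y
    set W : ℝ := √Y with hW
    have hW3 : 3 ≤ W := by rw [hW]; apply Real.le_sqrt_of_sq_le; linarith
    have hWsq : W ^ 2 = Y := Real.sq_sqrt hY0.le
    have hW0 : 0 < W := by linarith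
    set Q : ℕ := ⌊W⌋₊ with hQ
    have hQ1 : 1 ≤ Q := Nat.le_floor (by push_cast; linarith)
    set P : Finset ℕ := (pr W).filter (fun l => n ^ 2 < l ∧ ¬ l ∣ B' ∧ l ≠ 2 ∧ 2 ≤ N1 L l) with hP
    set η : ℕ → ℝ := fun l => (N1 L l - tau L l) / l - (n:ℝ) ^ 2 / (l:ℝ) ^ 2 with hη
    have hprW : ∀ l ∈ pr W, l.Prime ∧ l ≤ Q := by
      intro l hl
      unfold pr at hl
      rw [mem_filter, mem_Icc] at hl
      exact ⟨hl.2, hl.1.2⟩
    have hPpr : ∀ l ∈ P, l.Prime := fun l hl => (hprW l (mem_filter.1 hl).1).1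
    have hPQ : ∀ l ∈ P, l ≤ Q := fun l hl => (hprW l (mem_filter.1 hl).1).2
    have hηprop : ∀ l ∈ P, 0 < η l ∧ η l ≤ n / l := by
      intro l hl
      have hl0 : (0:ℝ) < l := by exact_mod_cast (hPpr l hl).pos
      have hlpr := hPpr l hl
      rw [hP, mem_filter] at hl
      obtain ⟨-, hl1, hl2, hl3, hl4⟩ := hl
      have hl1' : (n:ℝ) ^ 2 < l := by exact_mod_cast hl1
      have hN : (2:ℝ) ≤ N1 L l := by exact_mod_cast hl4
      have hNn : (N1 L l : ℝ) ≤ n := by exact_mod_cast hN1le l hlpr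
      have ht := tau_le L hn l
      have ht0 := tau_nonneg L l
      rw [if_pos (by omega)] at ht
      have hone : (1:ℝ) ≤ N1 L l - tau L l := by
        split_ifs at ht <;> linarith
      constructor
      · simp only [hη]
        have h10 : (n:ℝ) ^ 2 / (l:ℝ) ^ 2 < 1 / l := by
          rw [div_lt_div_iff₀ (by positivity) hl0]; nlinarith
        have h11 : 1 / (l:ℝ) ≤ (N1 L l - tau L l) / l := by gcongr
        linarith
      · simp only [hη]
        have h10 : 0 ≤ (n:ℝ) ^ 2 / (l:ℝ) ^ 2 := by positivity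
        have h11 : (N1 L l - tau L l) / l ≤ (n:ℝ) / l := by
          apply div_le_div_of_nonneg_right _ hl0.le; linarith
        linarith
    have hs := hsieve Y P T η (by linarith) hPpr (fun l hl => ⟨(hηprop l hl).1, by
      have hl' := hl
      rw [hP, mem_filter] at hl'
      obtain ⟨-, hl1, hl2, hl3, hl4⟩ := hl'
      have hlB : ¬ l ∣ B := fun h => hl2 (h.mul_right _)
      have hlB0 : ¬ l ∣ B0 := fun h => hl2 (h.mul_left _)
      obtain ⟨t1, t2⟩ := hT l (hPpr l hl) hlB
      have h12 := h3 L l (hPpr l hl) hl3 (hram l (hPpr l hl) hlB0) T t1 t2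
      refine h12.trans (le_of_eq ?_)
      simp only [hη, ← hndef]; ring⟩)
    have hss := hsums Q P η hQ1 hPpr hPQ (fun l hl => ⟨(hηprop l hl).1.le, (hηprop l hl).2⟩)
    have hfilter : P.powerset.filter (fun D => ∏ t ∈ D, t ≤ Q) =
        P.powerset.filter (fun D => (((∏ t ∈ D, t : ℕ) : ℝ)) ^ 2 ≤ Y) := by
      refine Finset.filter_congr fun D _ => ?_
      rw [hQ, Nat.le_floor_iff hW0.le]
      constructor
      · intro h
        rw [← hWsq]
        exact pow_le_pow_left₀ (Nat.cast_nonneg _) h 2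
      · intro h
        rw [← hWsq] at h
        exact le_of_sq_le_sq h hW0.le
    rw [hfilter] at hss
    -- lower bound of the sum of η
    have hPsub : P ⊆ pr W := Finset.filter_subset _ _
    have hlow : (1 + c) * Real.log (Real.log Y) - GN L Y - R ≤ ∑ l ∈ P, η l := by
      -- from P to pr W
      have e1 : ∑ l ∈ P, η l = ∑ l ∈ P, (N1 L l - tau L l) / (l:ℝ) -
          ∑ l ∈ P, (n:ℝ) ^ 2 / (l:ℝ) ^ 2 := by
        rw [← Finset.sum_sub_distrib]
      have e2 : ∑ l ∈ P, (n:ℝ) ^ 2 / (l:ℝ) ^ 2 ≤ n ^ 2 * K2 := by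
        have : ∑ l ∈ P, (n:ℝ) ^ 2 / (l:ℝ) ^ 2 = n ^ 2 * ∑ l ∈ P, 1 / (l:ℝ) ^ 2 := by
          rw [Finset.mul_sum]; exact Finset.sum_congr rfl fun l _ => by ring
        rw [this]
        exact mul_le_mul_of_nonneg_left (hsumm.sum_le_tsum _ fun n _ => by positivity)
          (by positivity)
      have e3 : ∑ l ∈ pr W, (N1 L l - tau L l) / (l:ℝ) ≤
          ∑ l ∈ P, (N1 L l - tau L l) / (l:ℝ) + n * (n ^ 2 + B' + 1) := by
        rw [← Finset.sum_sdiff hPsub, add_comm]
        refine add_le_add le_rfl ?_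
        have e4 : ∀ l ∈ pr W \ P, (N1 L l - tau L l) / (l:ℝ) ≤
            if l ∈ Icc 1 (n ^ 2) ∪ Icc 1 B' ∪ {2} then (n:ℝ) / 2 else 0 := by
          intro l hl
          rw [mem_sdiff] at hl
          obtain ⟨hl1, hl2⟩ := hl
          obtain ⟨hlp, -⟩ := hprW l hl1
          have hl0 : (0:ℝ) < l := by exact_mod_cast hlp.pos
          have hl2' : (2:ℝ) ≤ l := by exact_mod_cast hlp.two_le
          have hNn : (N1 L l : ℝ) ≤ n := by exact_mod_cast hN1le l hlp
          have ht0 := tau_nonneg L l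
          have hgen : (N1 L l - tau L l) / (l:ℝ) ≤ (n:ℝ) / 2 := by
            rw [div_le_div_iff₀ hl0 (by norm_num)]
            nlinarith
          split_ifs with hmem
          · exact hgen
          · simp only [mem_union, mem_Icc, mem_singleton, not_or, not_and, not_le] at hmem
            obtain ⟨⟨m1, m2⟩, m3⟩ := hmem
            have m1' := m1 hlp.one_lt.le
            have m2' := m2 hlp.one_lt.le
            have hdiv : ¬ l ∣ B' := fun h =>
              absurd (Nat.le_of_dvd (Nat.pos_of_ne_zero hB'0) h) (not_le.2 m2')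
            have hN2 : N1 L l < 2 := by
              by_contra hcon
              exact hl2 (mem_filter.2 ⟨hl1, m1', hdiv, m3, not_lt.1 hcon⟩)
            have hz : (N1 L l : ℝ) - tau L l = 0 := by
              unfold tau
              have : N1 L l = 0 ∨ N1 L l = 1 := by omega
              rcases this with h | h
              · rw [if_pos h, h]; simp
              · rw [if_neg (by omega), if_neg (by omega), h]; simp
            rw [hz, zero_div]
        refine (Finset.sum_le_sum e4).trans ?_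
        rw [← Finset.sum_filter]
        rw [Finset.sum_const, nsmul_eq_mul]
        have hcard : ((pr W \ P).filter (fun l => l ∈ Icc 1 (n ^ 2) ∪ Icc 1 B' ∪ {2})).card ≤
            n ^ 2 + B' + 1 := by
          refine (Finset.card_le_card (t := Icc 1 (n ^ 2) ∪ Icc 1 B' ∪ {2})
            fun l hl => (mem_filter.1 hl).2).trans ?_
          refine (Finset.card_union_le _ _).trans ?_
          have := Finset.card_union_le (Icc 1 (n ^ 2)) (Icc 1 B')
          simp only [Nat.card_Icc, Finset.card_singleton] at this ⊢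
          omega
        have hcard' : (((pr W \ P).filter
            (fun l => l ∈ Icc 1 (n ^ 2) ∪ Icc 1 B' ∪ {2})).card : ℝ) ≤ n ^ 2 + B' + 1 := by
          exact_mod_cast hcard
        have hpos : (0:ℝ) ≤ (n:ℝ) ^ 2 + B' + 1 := by positivity
        nlinarith
      -- tau
      have e5 : ∑ l ∈ pr W, (N1 L l : ℝ) / l - ∑ l ∈ (pr W).filter (fun l => 1 ≤ N1 L l),
          (1:ℝ) / l + 3 / 8 * ∑ l ∈ (pr W).filter (fun l => N1 L l = n), (1:ℝ) / l ≤
          ∑ l ∈ pr W, (N1 L l - tau L l) / (l:ℝ) := by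
        rw [Finset.sum_filter, Finset.sum_filter, Finset.mul_sum, ← Finset.sum_sub_distrib,
          ← Finset.sum_add_distrib]
        refine Finset.sum_le_sum fun l hl => ?_
        have hl0 : (0:ℝ) < l := by exact_mod_cast (hprW l hl).1.pos
        have ht := tau_le L hn l
        have e6 : (N1 L l : ℝ) / l - (if 1 ≤ N1 L l then (1:ℝ) / l else 0) +
            3 / 8 * (if N1 L l = n then (1:ℝ) / l else 0) =
            (N1 L l - ((if 1 ≤ N1 L l then (1:ℝ) else 0) -
              3 / 8 * (if N1 L l = n then (1:ℝ) else 0))) / l := by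
          split_ifs <;> ring
        rw [e6]
        apply div_le_div_of_nonneg_right _ hl0.le
        linarith
      have e7 := hmert W hW3
      have e8 := hsplit W hW3
      have e9 : ∑ l ∈ (pr W).filter (fun l => 1 ≤ N1 L l), (1:ℝ) / l ≤ GN L Y := by
        unfold GN
        refine Finset.sum_le_sum_of_subset_of_nonneg ?_ fun _ _ _ => by positivity
        refine Finset.filter_subset_filter _ ?_
        unfold pr
        refine Finset.filter_subset_filter _ (Finset.Icc_subset_Icc_right (Nat.floor_le_floor ?_))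
        nlinarith
      have e10 : Real.log (Real.log W) = Real.log (Real.log Y) - Real.log 2 := by
        have : Real.log W = Real.log Y / 2 := by
          rw [hW, Real.log_sqrt hY0.le]
        rw [this, Real.log_div hlogY.ne' (by norm_num)]
      rw [e10] at e7 e8
      have e11 : (1 + c) * (Real.log (Real.log Y) - Real.log 2) =
          (1 - c6 / 8) * (Real.log (Real.log Y) - Real.log 2) +
          3 / 8 * (c6 * (Real.log (Real.log Y) - Real.log 2)) := by rw [hc]; ring
      rw [e1, hR]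
      have e12 : (1 + c) * Real.log (Real.log Y) = (1 + c) * (Real.log (Real.log Y) - Real.log 2) +
        (1 + c) * Real.log 2 := by ring
      rw [e12, e11]
      linarith
    -- conclusion
    have hexp : Real.exp (∑ l ∈ P, η l) * c2 * M ≤ Cs * Y ^ n := by
      refine le_trans ?_ hs.2
      rw [mul_comm M]
      refine mul_le_mul_of_nonneg_right ?_ hM0
      rw [mul_comm]; exact hss
    have hexp2 : Real.exp ((1 + c) * Real.log (Real.log Y) - GN L Y - R) ≤
      Real.exp (∑ l ∈ P, η l) := Real.exp_le_exp.2 hlow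
    have hrp : Real.log Y ^ (-(1 + c)) = Real.exp (-((1 + c) * Real.log (Real.log Y))) := by
      rw [Real.rpow_def_of_pos hlogY]; congr 1; ring
    have h13 : Real.exp ((1 + c) * Real.log (Real.log Y) - GN L Y - R) * c2 * M ≤ Cs * Y ^ n :=
      (mul_le_mul_of_nonneg_right (mul_le_mul_of_nonneg_right hexp2 hc2.le) hM0).trans hexp
    have h14 : M ≤ Cs / c2 * Real.exp R * Y ^ n * Real.exp (GN L Y) * Real.log Y ^ (-(1 + c)) := by
      rw [hrp]
      set X1 := (1 + c) * Real.log (Real.log Y)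
      have h15 : Cs / c2 * Real.exp R * Y ^ n * Real.exp (GN L Y) * Real.exp (-X1) =
          (Cs * Y ^ n) / (Real.exp (X1 - GN L Y - R) * c2) := by
        rw [Real.exp_sub, Real.exp_sub, Real.exp_neg]
        field_simp
      rw [h15, le_div_iff₀ (by positivity)]
      linarith
    refine h14.trans ?_
    refine mul_le_mul_of_nonneg_right (mul_le_mul_of_nonneg_right
      (mul_le_mul_of_nonneg_right ?_ hYn.le) (Real.exp_pos _).le) hlp.le
    linarith

end Pool.Agent.Q91.EL
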